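import Mathlib
import Pool.Agent.Lib.MP_b06d56_al.Final

/-!
# The growth rate of a finite algebra is linear at least, or polylogarithmic

For a finite algebra `A = <A; F>` let `d(n)` be the least cardinality of a generating set of the
direct power `A^n`. Either `d(n) >= n / |A| - 1` for all `n`, or `d(n) <= C (log n)^k` for
some constants `C`, `k` and all `n >= 2`. In particular there is no finite algebra with growth
rate strictly between polylogarithmic and linear.
-/

set_option autoImplicit false

namespace Pool.Agent.Results.MP_b06d56_al.LinearOrPolylog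

/-- A family of finitary operations on `A`: a set of pairs (arity `n`, function `A^n → A`). -/
abbrev Operations (A : Type) : Type := Set (Σ n : ℕ, (Fin n → A) → A)

/-- The set `S ⊆ A^n` is closed under all operations of the algebra `⟨A; F⟩`, acting
coordinatewise on `A^n = (Fin n → A)`. -/
def ClosedUnder {A : Type} (F : Operations A) {n : ℕ} (S : Set (Fin n → A)) : Prop :=
  ∀ o ∈ F, ∀ v : Fin o.1 → Fin n → A, (∀ j, v j ∈ S) → (fun i => o.2 (fun j => v j i)) ∈ S

/-- `G` generates the direct power `A^n`: every closed set containing `G` is all of `A^n`. -/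
def Generates {A : Type} (F : Operations A) {n : ℕ} (G : Set (Fin n → A)) : Prop :=
  ∀ S : Set (Fin n → A), G ⊆ S → ClosedUnder F S → S = Set.univ

/-- The growth rate `d_A(n)`: the least cardinality of a generating set of `A^n`. -/
noncomputable def growthRate {A : Type} (F : Operations A) (n : ℕ) : ℕ :=
  sInf {k | ∃ G : Finset (Fin n → A), G.card = k ∧ Generates F (G : Set (Fin n → A))}

theorem growthRate_eq {A : Type} (F : Operations A) (n : ℕ) :
    growthRate F n = MPb06d56.growth F n := rfl

/-- **Linear or polylogarithmic.** For every finite algebra `⟨A; F⟩` (any family of finitary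
operations), either `d_A(n) ≥ n / |A| - 1` for all `n`, or `d_A(n) ≤ C (log n)^k` for all
`n ≥ 2`. -/
theorem result (A : Type) [Finite A] [Nonempty A] (F : Operations A) :
    (∀ n : ℕ, (n : ℝ) / Nat.card A - 1 ≤ growthRate F n) ∨
      ∃ (C : ℝ) (k : ℕ), ∀ n : ℕ, 2 ≤ n → (growthRate F n : ℝ) ≤ C * Real.log n ^ k := by
  by_cases h : ∃ n0 : ℕ, Nat.card A * (growthRate F n0 + 1) < n0
  · obtain ⟨n0, h0⟩ := h
    rw [growthRate_eq] at h0
    obtain ⟨C, k, hCk⟩ := MPb06d56.dichotomy F n0 h0
    refine Or.inr ⟨C, k, fun n hn => ?_⟩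
    rw [growthRate_eq]
    exact hCk n hn
  · push Not at h
    refine Or.inl (fun n => ?_)
    have hA : (0 : ℝ) < Nat.card A := by exact_mod_cast Nat.card_pos
    rw [sub_le_iff_le_add, div_le_iff₀ hA]
    have h1 : (n : ℝ) ≤ (Nat.card A : ℝ) * ((growthRate F n : ℝ) + 1) := by exact_mod_cast h n
    linarith

end Pool.Agent.Results.MP_b06d56_al.LinearOrPolylog
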